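import Pool.Agent.Work.MP_b71732_co.Main
import Pool.Agent.Work.MP_b71732_co.Lower

/-!
# Every edge of a Schrijver graph with a regular endpoint is critical
-/

namespace Pool.Agent.Results.MP_b71732_co.RegularCritical

open Pool.Agent.Work.MP_b71732_co

/-- The vertices of the Schrijver graph `SG(n,k)`: the `k`-element subsets of the cyclically
ordered set `ZMod n` (the vertices of the cycle `C_n`) containing no two cyclically
consecutive elements. -/
@[ext]
structure SVert (n k : ℕ) where
  /-- the underlying subset -/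
  carrier : Finset (ZMod n)
  card_eq : carrier.card = k
  stable : ∀ i ∈ carrier, i + 1 ∉ carrier

/-- The Schrijver graph `SG(n,k)`: two (distinct) stable `k`-subsets are adjacent when they are
disjoint. -/
def SG (n k : ℕ) : SimpleGraph (SVert n k) where
  Adj A B := A ≠ B ∧ Disjoint A.carrier B.carrier
  symm := ⟨fun _ _ h => ⟨h.1.symm, h.2.symm⟩⟩
  loopless := ⟨fun _ h => h.1 rfl⟩

/-- A vertex `V` is regular if every three cyclically consecutive elements of the cycle contain
an element of `V`. -/
def IsRegular {n k : ℕ} (V : SVert n k) : Prop :=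
  ∀ i : ZMod n, i ∈ V.carrier ∨ i + 1 ∈ V.carrier ∨ i + 2 ∈ V.carrier

section

variable {n : ℕ} [NeZero n]

def toN (A : Finset (ZMod n)) : Finset ℕ := A.image ZMod.val

theorem mem_toN {A : Finset (ZMod n)} {i : ZMod n} : i.val ∈ toN A ↔ i ∈ A := by
  unfold toN
  rw [Finset.mem_image]
  constructor
  · rintro ⟨j, hj, he⟩
    rwa [← ZMod.val_injective n he]
  · intro h
    exact ⟨i, h, rfl⟩

theorem toN_inj {A B : Finset (ZMod n)} (h : toN A = toN B) : A = B := by
  ext i
  rw [← mem_toN, h, mem_toN]

theorem val_succ (hn : 2 ≤ n) (i : ZMod n) : (i + 1).val = rot n i.val := by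
  have h1 : (1 : ZMod n).val = 1 := by
    rw [ZMod.val_one_eq_one_mod]
    exact Nat.mod_eq_of_lt hn
  have h2 := ZMod.val_lt i
  rw [ZMod.val_add, h1]
  unfold rot
  split_ifs with h
  · rw [h, Nat.mod_self]
  · exact Nat.mod_eq_of_lt (by omega)

theorem toN_lt {A : Finset (ZMod n)} : ∀ x ∈ toN A, x < n := by
  intro x hx
  unfold toN at hx
  rw [Finset.mem_image] at hx
  obtain ⟨i, _, rfl⟩ := hx
  exact ZMod.val_lt i

theorem stab_toN (hn : 2 ≤ n) {k : ℕ} (A : SVert n k) : Stab n k (toN A.1) := by
  refine ⟨toN_lt, ?_, ?_⟩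
  · refine Eq.trans ?_ A.card_eq
    unfold toN
    exact Finset.card_image_of_injective _ (ZMod.val_injective n)
  · intro x hx
    unfold toN at hx
    rw [Finset.mem_image] at hx
    obtain ⟨i, hi, rfl⟩ := hx
    rw [← val_succ hn, mem_toN]
    exact A.stable i hi

theorem disj_toN {A B : Finset (ZMod n)} (h : Disjoint A B) : Disjoint (toN A) (toN B) := by
  rw [Finset.disjoint_left] at h ⊢
  intro x hx hx'
  unfold toN at hx
  rw [Finset.mem_image] at hx
  obtain ⟨i, hi, rfl⟩ := hx
  rw [mem_toN] at hx'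
  exact h hi hx'

/-- the stable subset of `ZMod n` given by a stable set of positions. -/
def ofN (hn : 2 ≤ n) {k : ℕ} (A : Finset ℕ) (h : Stab n k A) : SVert n k :=
  ⟨Finset.univ.filter (fun i : ZMod n => i.val ∈ A), by
    have h1 : toN (Finset.univ.filter (fun i : ZMod n => i.val ∈ A)) = A := by
      ext x
      constructor
      · intro hx
        unfold toN at hx
        rw [Finset.mem_image] at hx
        obtain ⟨i, hi, rfl⟩ := hx
        exact (Finset.mem_filter.1 hi).2
      · intro hx
        have hxn := h.lt x hx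
        have h2 : ((x : ZMod n)).val = x := ZMod.val_cast_of_lt hxn
        rw [← h2, mem_toN, Finset.mem_filter]
        exact ⟨Finset.mem_univ _, by rw [h2]; exact hx⟩
    have h3 := h.card
    rw [← h1] at h3
    unfold toN at h3
    rwa [Finset.card_image_of_injective _ (ZMod.val_injective n)] at h3, by
    intro i hi hi'
    rw [Finset.mem_filter] at hi hi'
    rw [val_succ hn] at hi'
    exact h.adj _ hi.2 hi'.2⟩

theorem mem_ofN (hn : 2 ≤ n) {k : ℕ} {A : Finset ℕ} (h : Stab n k A) (i : ZMod n) :
    i ∈ (ofN hn A h).carrier ↔ i.val ∈ A := by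
  unfold ofN
  simp

end

/-- **Theorem.** For all `n ≥ 2k ≥ 2`, every edge `VW` of the Schrijver graph `SG(n,k)` with a
regular endpoint `V` is critical: deleting it lowers the chromatic number. -/
theorem result (n k : ℕ) (hk : 1 ≤ k) (hn : 2 * k ≤ n) (V W : SVert n k)
    (hV : IsRegular V) (hVW : (SG n k).Adj V W) :
    ((SG n k).deleteEdges {s(V, W)}).chromaticNumber < (SG n k).chromaticNumber := by
  classical
  have hn2 : 2 ≤ n := by omega
  have : NeZero n := ⟨by omega⟩
  have hup : ((SG n k).deleteEdges {s(V, W)}).Colorable (n - 2 * k + 1) := by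
    have hD : Dat n k (toN V.1) (toN W.1) := by
      refine ⟨stab_toN hn2 V, stab_toN hn2 W, disj_toN hVW.2, ?_⟩
      intro x hx
      have h2 : ((x : ZMod n)).val = x := ZMod.val_cast_of_lt hx
      have h3 := hV (x : ZMod n)
      rw [show (x : ZMod n) + 2 = (x : ZMod n) + 1 + 1 by ring] at h3
      rw [← mem_toN, ← mem_toN, ← mem_toN, val_succ hn2, val_succ hn2, val_succ hn2, h2] at h3
      exact h3
    obtain ⟨c, hc1, hc2⟩ := main n k _ _ hk hn hD
    refine ⟨SimpleGraph.Coloring.mk
      (fun A => (⟨c (toN A.1), hc1 _ (stab_toN hn2 A)⟩ : Fin (n - 2 * k + 1))) ?_⟩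
    intro A B hAB he
    rw [SimpleGraph.deleteEdges_adj] at hAB
    have he' : c (toN A.1) = c (toN B.1) := congrArg Fin.val he
    rcases hc2 _ _ (stab_toN hn2 A) (stab_toN hn2 B) (disj_toN hAB.1.2) he' with h | h
    · apply hAB.2
      have h1 : A = V := SVert.ext (toN_inj h.1)
      have h2 : B = W := SVert.ext (toN_inj h.2)
      rw [h1, h2]
      exact Set.mem_singleton _
    · apply hAB.2
      have h1 : A = W := SVert.ext (toN_inj h.1)
      have h2 : B = V := SVert.ext (toN_inj h.2)
      rw [h1, h2, Sym2.eq_swap]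
      exact Set.mem_singleton _
  have hlow : ¬ (SG n k).Colorable (n - 2 * k + 1) := by
    rintro ⟨C⟩
    obtain ⟨A, B, hA, hB, hd, he⟩ := schrijver_lower n k hk hn
      (fun A => if h : Stab n k A then ((C (ofN hn2 A h) : Fin (n - 2 * k + 1)) : ℕ) else 0)
      (fun A hA => by simp only [dif_pos hA]; exact Fin.is_lt _)
    simp only [dif_pos hA, dif_pos hB] at he
    have hd' : Disjoint (ofN hn2 A hA).carrier (ofN hn2 B hB).carrier := by
      rw [Finset.disjoint_left] at hd ⊢
      intro i hi hi'
      rw [mem_ofN] at hi hi'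
      exact hd hi hi'
    have hne : ofN hn2 A hA ≠ ofN hn2 B hB := by
      intro h
      rw [h, disjoint_self] at hd'
      have h1 := (ofN hn2 B hB).card_eq
      rw [hd'] at h1
      simp at h1
      omega
    exact C.valid (show (SG n k).Adj _ _ from ⟨hne, hd'⟩) (Fin.ext he)
  have h1 : ((SG n k).deleteEdges {s(V, W)}).chromaticNumber ≤ ((n - 2 * k + 1 : ℕ) : ℕ∞) :=
    SimpleGraph.chromaticNumber_le_iff_colorable.2 hup
  have h2 : ((n - 2 * k + 1 : ℕ) : ℕ∞) < (SG n k).chromaticNumber := by
    rw [← not_le]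
    intro h
    exact hlow (SimpleGraph.chromaticNumber_le_iff_colorable.1 h)
  exact lt_of_le_of_lt h1 h2

end Pool.Agent.Results.MP_b71732_co.RegularCritical
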